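import Pool.Agent.U85.Ml.Un

set_option autoImplicit false

/-!
# Montgomery's theorem in almost every window of bounded length

For `t ∈ [T, 2T]` and a constant `H` let `zeros t (H/log T)` be the set of the nontrivial zeros `ρ = β + iγ` of
zeta with `|γ - t| ≤ H/log T`; this window contains `H/π` zeros in the mean, a bounded number. The form factor
of the zeros in this window is

`F(α, t) = |∑_ρ m_ρ T^(α(ρ - 1/2))|² / (H/π)`, `m_ρ` = multiplicity,

that is, on the Riemann hypothesis, `(π/H) ∑_{γ,γ'} T^(iα(γ-γ'))` over the pairs of ordinates in the window.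
Montgomery's theorem says that its MEAN over `t` has the limit `(1/2) δ₀ + α dα` on `0 ≤ α < 1` (half of the mass
`δ₀` at `0`, since only `α ≥ 0` is considered), so that `∫_0^x F(α, t) dα` has the mean `(1 + x²)/2`.

We prove a law of large numbers, without any hypothesis: for `x ≤ a < 1/2` the form factor of almost EVERY
SINGLE window of bounded length obeys Montgomery's law, uniformly in `x`. For every `a < 1/2` and `ε > 0`, all
`H ≥ H₀(a, ε)` and all large `T`, all `t ∈ [T, 2T]` outside a set of measure at most `εT` satisfy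

`|∫_0^x F(α, t) dα - (1 + x²)/2| ≤ ε` for all `x ∈ [ε, a]` simultaneously,

and the exceptional set is also small with respect to `|B(t)|² dt` for EVERY Dirichlet polynomial `B` of length
at most `T^θ`, `θ = θ(a, ε, H) > 0`: no such polynomial can single out windows in which the zeros are
correlated in a different way. (The range `α < 1/2` is the one in which the fourth moments of the sums over
primes near `T^α` can be computed.)
-/

namespace Pool.Agent.Results.MP_8958e8_nt.AlmostEveryWindow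

open MeasureTheory

noncomputable section

/-- the Dirichlet polynomial with the coefficients `b_1, ..., b_N` on the critical line -/
def B (N : ℕ) (b : ℕ → ℂ) (t : ℝ) : ℂ := ∑ n ∈ Finset.Icc 1 N, b n * (n : ℂ) ^ (-(1 / 2 + t * Complex.I))

/-- the mass of the polynomial on a set of heights -/
def mass (N : ℕ) (b : ℕ → ℂ) (E : Set ℝ) : ℝ := ∫ t in E, ‖B N b t‖ ^ 2

/-- the nontrivial zeros of zeta with `|γ - t| ≤ r` -/
def zeros (t r : ℝ) : Set ℂ := {s : ℂ | riemannZeta s = 0 ∧ 0 < s.re ∧ s.re < 1 ∧ |s.im - t| ≤ r}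

/-- the form factor of the zeros with `|γ - t| ≤ H/log T` -/
def F (T H α t : ℝ) : ℝ :=
  ‖∑ᶠ s ∈ zeros t (H / Real.log T), (analyticOrderNatAt riemannZeta s : ℂ) * (T : ℂ) ^ (α * (s - 1 / 2))‖ ^ 2 /
    (H / Real.pi)

/-- the points of `[T, 2T]` at which Montgomery's law fails by more than `ε` for some `x ∈ [ε, a]` -/
def bad (a T H ε : ℝ) : Set ℝ :=
  {t : ℝ | t ∈ Set.Icc T (2 * T) ∧ ∃ x : ℝ, ε ≤ x ∧ x ≤ a ∧ ε < |(∫ α in (0 : ℝ)..x, F T H α t) - (1 + x ^ 2) / 2|}

/-- **Montgomery's theorem in almost every window of bounded length.** -/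
theorem result (a : ℝ) (ha : a < 1 / 2) (ε : ℝ) (hε : 0 < ε) :
    ∃ H₀ : ℝ, 1 ≤ H₀ ∧ ∀ H : ℝ, H₀ ≤ H → ∃ θ T₀ : ℝ, 0 < θ ∧ 1 ≤ T₀ ∧ ∀ T : ℝ, T₀ ≤ T →
      volume.real (bad a T H ε) ≤ ε * T ∧
      ∀ N : ℕ, (N : ℝ) ≤ T ^ θ → ∀ b : ℕ → ℂ,
        mass N b (bad a T H ε) ≤ ε * mass N b (Set.Icc T (2 * T)) := by
  obtain ⟨H₀, hH₀, h⟩ := Pool.Agent.U85.Ml.cdf_all a ha ε hε
  refine ⟨H₀, hH₀, fun H hH => ?_⟩
  obtain ⟨θ, T₀, hθ, hT₀, h⟩ := h H hH
  refine ⟨θ, T₀, hθ, hT₀, fun T hT => ⟨?_, fun N hN b => h T hT N hN b⟩⟩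
  have hT1 : 1 ≤ T := hT₀.trans hT
  have h1 := h T hT 1 (by push_cast; exact Real.one_le_rpow hT1 hθ.le) (fun _ => 1)
  simp only [Pool.Agent.U85.Zd.dp_one, norm_one, one_pow, integral_const, smul_eq_mul, mul_one,
    measureReal_restrict_apply_univ] at h1
  rw [Real.volume_real_Icc_of_le (by linarith), show 2 * T - T = T by ring] at h1
  exact h1

end

end Pool.Agent.Results.MP_8958e8_nt.AlmostEveryWindow
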