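import Pool.Agent.R838.ST.Zcor

/-!
# MP_8958e8_nt: the correlations of the zeros of zeta and of the de Bruijn-Newman family

`H t z` is the integral of `exp (t * u ^ 2) * Phi u * cos (z * u)` over `u > 0`, so that `H 0 z` is
`ξ(1/2 + i z / 2) / 8`: the zeros of `H 0` are the numbers `z` for which `1/2 + i z / 2` is a
nontrivial zero of zeta, and `Re z / 2` is its ordinate. The mean spacing of the ordinates at height
`T` is `2π / log T`.

No hypothesis is assumed.

* For all `k`, at times `t ≤ δ / log² T` the zeros of `H t` up to height `T` have the same `k`-point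
  correlations as those of zeta: the numbers of `(k + 1)`-tuples of different zeros whose normalised
  differences are in a box agree up to a change of the box by `ε` and an error `ε T log T`.
* So, if `t(T) log² T → 0`, then a law for the `k`-point correlations, with any continuous densities
  (or distribution functions), holds for zeta if and only if it holds for `H (t T)`. This is so for the
  laws of the Gaussian unitary ensemble, for all `k`.
* In particular Q1, the gap form of Montgomery's pair correlation conjecture, holds if and only if the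
  same asymptotics hold for the zeros of `H (t T)`, for some (or for every) such function `t`.
-/

set_option autoImplicit false

open Filter Topology

namespace Pool.Agent.Results.MP_8958e8_nt.HeatFlowCorrelations

/-- The de Bruijn-Newman kernel. -/
noncomputable def Phi (u : ℝ) : ℝ := ∑' n : ℕ,
  (2 * Real.pi ^ 2 * ((n : ℝ) + 1) ^ 4 * Real.exp (9 * u) -
    3 * Real.pi * ((n : ℝ) + 1) ^ 2 * Real.exp (5 * u)) *
    Real.exp (-(Real.pi * ((n : ℝ) + 1) ^ 2 * Real.exp (4 * u)))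

/-- The de Bruijn-Newman family: the integral of `exp (t u²) Φ(u) cos (z u)` over `u > 0`. -/
noncomputable def H (t : ℝ) (z : ℂ) : ℂ :=
  ∫ u in Set.Ioi (0 : ℝ), ((Real.exp (t * u ^ 2) * Phi u : ℝ) : ℂ) * Complex.cos (z * u)

/-- The nontrivial zeros of zeta, with multiplicity: a zero `s` of order `m` gives the `m` elements
`(s, i)`, `i < m`. -/
def zetaZeros : Set (ℂ × ℕ) :=
  {p | 0 < p.1.re ∧ p.1.re < 1 ∧ p.2 < analyticOrderNatAt riemannZeta p.1}

/-- The zeros of `H t`, with multiplicity. -/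
def heatZeros (t : ℝ) : Set (ℂ × ℕ) := {p | p.2 < analyticOrderNatAt (H t) p.1}

/-- For a set `Z` of zeros with heights `h`: the `(k + 1)`-tuples `x` of different elements of `Z` with
heights in `(0, T]`, such that for all `i` the difference of the heights of `x (i + 1)` and of `x 0`,
divided by the mean spacing `2π / log T`, is in `[α i, β i]`. -/
def tuples (Z : Set (ℂ × ℕ)) (h : ℂ → ℝ) {k : ℕ} (T : ℝ) (α β : Fin k → ℝ) :
    Set (Fin (k + 1) → ℂ × ℕ) :=
  {x | (∀ i, x i ∈ Z) ∧ Function.Injective x ∧ (∀ i, 0 < h (x i).1 ∧ h (x i).1 ≤ T) ∧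
    ∀ i : Fin k, α i ≤ (h (x i.succ).1 - h (x 0).1) * (Real.log T / (2 * Real.pi)) ∧
      (h (x i.succ).1 - h (x 0).1) * (Real.log T / (2 * Real.pi)) ≤ β i}

/-- the number of the tuples for zeta -/
noncomputable def zetaCount {k : ℕ} (T : ℝ) (α β : Fin k → ℝ) : ℝ :=
  ((tuples zetaZeros (fun s => s.im) T α β).ncard : ℝ)

/-- the number of the tuples for `H t`, where `Re z / 2` is the height of the zero `z` -/
noncomputable def heatCount {k : ℕ} (t T : ℝ) (α β : Fin k → ℝ) : ℝ :=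
  ((tuples (heatZeros t) (fun z => z.re / 2) T α β).ncard : ℝ)

/-- `N(T; α, β)`: the number of ordered pairs of ordinates of nontrivial zeros of zeta in `[0, T]`,
counted with multiplicity, with `(γ₁ - γ₂) (log T) / 2π` in `[α, β]` -/
noncomputable def N (T α β : ℝ) : ℕ :=
  {p : (ℂ × ℕ) × (ℂ × ℕ) | p.1 ∈ zetaZeros ∧ p.2 ∈ zetaZeros ∧ 0 ≤ p.1.1.im ∧ p.1.1.im ≤ T ∧
    0 ≤ p.2.1.im ∧ p.2.1.im ≤ T ∧ α ≤ (p.1.1.im - p.2.1.im) * Real.log T / (2 * Real.pi) ∧
    (p.1.1.im - p.2.1.im) * Real.log T / (2 * Real.pi) ≤ β}.ncard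

/-- The same for the zeros of `H t` with `Re z / 2` in `(0, T]`. -/
noncomputable def NH (t T α β : ℝ) : ℕ :=
  {p : (ℂ × ℕ) × (ℂ × ℕ) | p.1 ∈ heatZeros t ∧ p.2 ∈ heatZeros t ∧ 0 < p.1.1.re / 2 ∧
    p.1.1.re / 2 ≤ T ∧ 0 < p.2.1.re / 2 ∧ p.2.1.re / 2 ≤ T ∧
    α ≤ (p.1.1.re / 2 - p.2.1.re / 2) * Real.log T / (2 * Real.pi) ∧
    (p.1.1.re / 2 - p.2.1.re / 2) * Real.log T / (2 * Real.pi) ≤ β}.ncard

/-- the integral of the pair correlation function over `[α, β]` -/
noncomputable def IF (α β : ℝ) : ℝ :=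
  ∫ u in α..β, (1 - (Real.sin (Real.pi * u) / (Real.pi * u)) ^ 2)

/-- the main term without the integral, `T log T / 2π` -/
noncomputable def X (T : ℝ) : ℝ := T * Real.log T / (2 * Real.pi)

/-- Q1 of the problem: the ratio of the two sides tends to `1` -/
def Q1 : Prop := ∀ α β : ℝ, 0 < α → α < β →
  Tendsto (fun T => (N T α β : ℝ) / (X T * IF α β)) atTop (𝓝 1)

/-- the same asymptotics for the zeros of `H (t T)` -/
def Q1Heat (t : ℝ → ℝ) : Prop := ∀ α β : ℝ, 0 < α → α < β →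
  Tendsto (fun T => (NH (t T) T α β : ℝ) / (X T * IF α β)) atTop (𝓝 1)

open Pool.Agent.R838.ST

theorem zc_eq {k : ℕ} (T : ℝ) (α β : Fin k → ℝ) :
    zetaCount T α β = ((Tuples ZetaZ (fun z => z.im) T α β).ncard : ℝ) := rfl

theorem hc_eq {k : ℕ} (t T : ℝ) (α β : Fin k → ℝ) : heatCount t T α β =
    ((Tuples (Zi (Pool.Agent.H986R2.DBN.Ht t)) (fun z => z.re / 2) T α β).ncard : ℝ) := rfl

/-- comparison of the counts -/
theorem cmp' (k : ℕ) (α β : Fin k → ℝ) (ε : ℝ) (hε : 0 < ε) : ∃ δ T₀ : ℝ, 0 < δ ∧ 2 ≤ T₀ ∧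
    ∀ T t : ℝ, T₀ ≤ T → 0 ≤ t → t ≤ δ / Real.log T ^ 2 →
      zetaCount T α β ≤ heatCount t T (fun i => α i - ε) (fun i => β i + ε) +
        ε * (T * Real.log T) ∧
      heatCount t T α β ≤ zetaCount T (fun i => α i - ε) (fun i => β i + ε) +
        ε * (T * Real.log T) := cmp k α β ε hε

lemma ev_time {t : ℝ → ℝ} (ht2 : Tendsto (fun T => t T * Real.log T ^ 2) atTop (𝓝 0)) {δ : ℝ}
    (hδ : 0 < δ) : ∀ᶠ T : ℝ in atTop, t T ≤ δ / Real.log T ^ 2 := by
  filter_upwards [ht2.eventually_lt_const hδ, eventually_gt_atTop (1 : ℝ)] with T h1 h2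
  have hL : 0 < Real.log T := Real.log_pos h2
  rw [le_div_iff₀ (by positivity)]
  exact h1.le

lemma X_pos {T : ℝ} (hT : 1 < T) : 0 < X T := by
  unfold X
  have := Real.log_pos hT
  have := Real.pi_pos
  positivity

lemma TL_X (T : ℝ) : T * Real.log T = 2 * Real.pi * X T := by
  unfold X
  have := Real.pi_pos
  field_simp

/-- transfer of a limit law -/
theorem transfer {k : ℕ} {f g : ℝ → (Fin k → ℝ) → (Fin k → ℝ) → ℝ}
    {S : Set ((Fin k → ℝ) × (Fin k → ℝ))} (hS : IsOpen S)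
    {M : (Fin k → ℝ) × (Fin k → ℝ) → ℝ} (hM : ContinuousOn M S)
    (h1 : ∀ (α β : Fin k → ℝ) (ε : ℝ), 0 < ε → ∀ᶠ T : ℝ in atTop,
      g T α β ≤ f T (fun i => α i - ε) (fun i => β i + ε) + ε * (T * Real.log T))
    (h2 : ∀ (α β : Fin k → ℝ) (ε : ℝ), 0 < ε → ∀ᶠ T : ℝ in atTop,
      f T α β ≤ g T (fun i => α i - ε) (fun i => β i + ε) + ε * (T * Real.log T))
    (hf : ∀ p ∈ S, Tendsto (fun T => f T p.1 p.2 / X T) atTop (𝓝 (M p))) :
    ∀ p ∈ S, Tendsto (fun T => g T p.1 p.2 / X T) atTop (𝓝 (M p)) := by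
  rintro ⟨α, β⟩ hp
  rw [Metric.tendsto_atTop']
  intro η hη
  have hpi := Real.pi_pos
  have hc := hM.continuousAt (hS.mem_nhds hp)
  -- the boxes near `p`
  have hq1 : Tendsto (fun e : ℝ => (((fun i => α i - e), (fun i => β i + e)) :
      (Fin k → ℝ) × (Fin k → ℝ))) (𝓝 0) (𝓝 (α, β)) := by
    have : Continuous fun e : ℝ => (((fun i => α i - e), (fun i => β i + e)) :
      (Fin k → ℝ) × (Fin k → ℝ)) := by fun_prop
    have h := this.tendsto 0
    simpa using h
  have hq2 : Tendsto (fun e : ℝ => (((fun i => α i + e), (fun i => β i - e)) :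
      (Fin k → ℝ) × (Fin k → ℝ))) (𝓝 0) (𝓝 (α, β)) := by
    have : Continuous fun e : ℝ => (((fun i => α i + e), (fun i => β i - e)) :
      (Fin k → ℝ) × (Fin k → ℝ)) := by fun_prop
    have h := this.tendsto 0
    simpa using h
  have hN : ∀ᶠ q in 𝓝 (α, β), q ∈ S ∧ |M q - M (α, β)| < η / 4 := by
    refine (hS.eventually_mem hp).and ?_
    have := Metric.tendsto_nhds.1 hc (η / 4) (by positivity)
    simpa [Real.dist_eq] using this
  have hE := (hq1.eventually hN).and (hq2.eventually hN)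
  obtain ⟨ρ, hρ, hE⟩ := Metric.eventually_nhds_iff.1 hE
  obtain ⟨e, he⟩ : ∃ e, e = min (ρ / 2) (η / (16 * Real.pi)) := ⟨_, rfl⟩
  have he0 : 0 < e := by rw [he]; positivity
  have he1 : e ≤ ρ / 2 := by rw [he]; exact min_le_left _ _
  have he2 : e ≤ η / (16 * Real.pi) := by rw [he]; exact min_le_right _ _
  have he3 : 2 * Real.pi * e ≤ η / 8 := by
    rw [le_div_iff₀ (by positivity)] at he2
    linarith
  have hd : dist e (0 : ℝ) < ρ := by
    rw [Real.dist_eq, sub_zero, abs_of_pos he0]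
    linarith
  obtain ⟨⟨hs1, hm1⟩, ⟨hs2, hm2⟩⟩ := hE hd
  have f1 := hf _ hs1
  have f2 := hf _ hs2
  rw [Metric.tendsto_atTop'] at f1 f2
  obtain ⟨T1, hT1⟩ := f1 (η / 4) (by positivity)
  obtain ⟨T2, hT2⟩ := f2 (η / 4) (by positivity)
  obtain ⟨T3, hT3⟩ := eventually_atTop.1 (h1 α β e he0)
  obtain ⟨T4, hT4⟩ := eventually_atTop.1 (h2 (fun i => α i + e) (fun i => β i - e) e he0)
  refine ⟨max (max T1 T2) (max (max T3 T4) 1), fun T hT => ?_⟩
  have g1 : T1 < T := lt_of_le_of_lt ((le_max_left _ _).trans (le_max_left _ _)) hT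
  have g2 : T2 < T := lt_of_le_of_lt ((le_max_right _ _).trans (le_max_left _ _)) hT
  have g3 : T3 < T := lt_of_le_of_lt ((le_max_left _ _).trans ((le_max_left _ _).trans
    (le_max_right _ _))) hT
  have g4 : T4 < T := lt_of_le_of_lt ((le_max_right _ _).trans ((le_max_left _ _).trans
    (le_max_right _ _))) hT
  have g5 : 1 < T := lt_of_le_of_lt ((le_max_right _ _).trans (le_max_right _ _)) hT
  have hX := X_pos g5
  have k1 := hT1 T g1
  have k2 := hT2 T g2
  have k3 := hT3 T g3.le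
  have k4 := hT4 T g4.le
  rw [Real.dist_eq] at k1 k2 ⊢
  have e1 : (fun i => (fun i => α i + e) i - e) = α := by
    funext i
    ring
  have e2 : (fun i => (fun i => β i - e) i + e) = β := by
    funext i
    ring
  rw [e1, e2] at k4
  rw [TL_X] at k3 k4
  have m3 : g T α β / X T ≤ f T (fun i => α i - e) (fun i => β i + e) / X T + 2 * Real.pi * e := by
    rw [div_le_iff₀ hX, add_mul, div_mul_cancel₀ _ hX.ne']
    linarith
  have m4 : f T (fun i => α i + e) (fun i => β i - e) / X T ≤ g T α β / X T + 2 * Real.pi * e := by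
    rw [div_le_iff₀ hX, add_mul, div_mul_cancel₀ _ hX.ne']
    linarith
  have k1' := abs_lt.1 k1
  have k2' := abs_lt.1 k2
  have m1' := abs_lt.1 hm1
  have m2' := abs_lt.1 hm2
  rw [abs_lt]
  constructor
  · linarith [k2'.1, m2'.1]
  · linarith [k1'.2, m1'.2]

/-- laws for the `k`-point correlations -/
theorem law_iff {k : ℕ} {t : ℝ → ℝ} (ht : ∀ T, 0 ≤ t T)
    (ht2 : Tendsto (fun T => t T * Real.log T ^ 2) atTop (𝓝 0))
    {S : Set ((Fin k → ℝ) × (Fin k → ℝ))} (hS : IsOpen S)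
    {M : (Fin k → ℝ) × (Fin k → ℝ) → ℝ} (hM : ContinuousOn M S) :
    (∀ p ∈ S, Tendsto (fun T => zetaCount T p.1 p.2 / X T) atTop (𝓝 (M p))) ↔
      ∀ p ∈ S, Tendsto (fun T => heatCount (t T) T p.1 p.2 / X T) atTop (𝓝 (M p)) := by
  have key : ∀ (α β : Fin k → ℝ) (ε : ℝ), 0 < ε → ∀ᶠ T : ℝ in atTop,
      zetaCount T α β ≤ heatCount (t T) T (fun i => α i - ε) (fun i => β i + ε) +
        ε * (T * Real.log T) ∧
      heatCount (t T) T α β ≤ zetaCount T (fun i => α i - ε) (fun i => β i + ε) +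
        ε * (T * Real.log T) := by
    intro α β ε hε
    obtain ⟨δ, T0, hδ, -, h⟩ := cmp' k α β ε hε
    filter_upwards [ev_time ht2 hδ, eventually_ge_atTop T0] with T h1 h2
    exact h T (t T) h2 (ht T) h1
  constructor
  · exact transfer (f := fun T => zetaCount T) (g := fun T => heatCount (t T) T) hS hM
      (fun α β ε hε => (key α β ε hε).mono fun T h => h.2)
      (fun α β ε hε => (key α β ε hε).mono fun T h => h.1)
  · exact transfer (f := fun T => heatCount (t T) T) (g := fun T => zetaCount T) hS hM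
      (fun α β ε hε => (key α β ε hε).mono fun T h => h.1)
      (fun α β ε hε => (key α β ε hε).mono fun T h => h.2)

/-- pairs and tuples -/
theorem pairs_eq (Z : Set (ℂ × ℕ)) (h : ℂ → ℝ) {T α β : ℝ} (hα : 0 < α) :
    {p : (ℂ × ℕ) × (ℂ × ℕ) | p.1 ∈ Z ∧ p.2 ∈ Z ∧ 0 < h p.1.1 ∧ h p.1.1 ≤ T ∧ 0 < h p.2.1 ∧
      h p.2.1 ≤ T ∧ α ≤ (h p.1.1 - h p.2.1) * Real.log T / (2 * Real.pi) ∧
      (h p.1.1 - h p.2.1) * Real.log T / (2 * Real.pi) ≤ β}.ncard =
    (tuples Z h T (fun _ : Fin 1 => α) (fun _ => β)).ncard := by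
  have hinj : Function.Injective fun p : (ℂ × ℕ) × (ℂ × ℕ) => (![p.2, p.1] : Fin 2 → ℂ × ℕ) := by
    intro p q hpq
    have h0 := congrFun hpq 0
    have h1 := congrFun hpq 1
    exact Prod.ext h1 h0
  rw [← Set.ncard_image_of_injective _ hinj]
  congr 1
  ext x
  have e : ∀ a b : ℝ, (a - b) * Real.log T / (2 * Real.pi) =
      (a - b) * (Real.log T / (2 * Real.pi)) := fun a b => mul_div_assoc _ _ _
  constructor
  · rintro ⟨p, ⟨a1, a2, a3, a4, a5, a6, a7, a8⟩, rfl⟩
    rw [e] at a7 a8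
    refine ⟨?_, ?_, ?_, ?_⟩
    · intro i
      fin_cases i
      · exact a2
      · exact a1
    · intro i j hij
      have hne : p.1 ≠ p.2 := by
        intro h0
        rw [h0, sub_self, zero_mul] at a7
        linarith
      fin_cases i <;> fin_cases j
      · rfl
      · exact absurd hij.symm hne
      · exact absurd hij hne
      · rfl
    · intro i
      fin_cases i
      · exact ⟨a5, a6⟩
      · exact ⟨a3, a4⟩
    · intro i
      fin_cases i
      exact ⟨a7, a8⟩
  · rintro ⟨b1, b2, b3, b4⟩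
    have b4' := b4 0
    refine ⟨(x 1, x 0), ⟨b1 1, b1 0, (b3 1).1, (b3 1).2, (b3 0).1, (b3 0).2, ?_, ?_⟩, ?_⟩
    · rw [e]
      exact b4'.1
    · rw [e]
      exact b4'.2
    · funext i
      fin_cases i <;> rfl

theorem NH_eq {t T α β : ℝ} (hα : 0 < α) :
    (NH t T α β : ℝ) = heatCount t T (fun _ : Fin 1 => α) (fun _ => β) := by
  have h := pairs_eq (heatZeros t) (fun z => z.re / 2) (T := T) (β := β) hα
  unfold NH heatCount
  exact_mod_cast h

/-- there are no zeros with very small ordinate -/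
lemma low : ∃ h0 : ℝ, 0 < h0 ∧ ∀ p ∈ zetaZeros, 0 < p.1.im → h0 < p.1.im := by
  have hfin := zfin stb_xi.diff (B := 1 / 2) (fun s hs => stb_xi.strip 0 s le_rfl (by
    rw [stb_xi.zero]; exact hs)) 0 1
  have hmem : ∀ p ∈ zetaZeros, 0 < p.1.im → p.1.im ≤ 1 →
      p.1 - 1 / 2 ∈ {s | Pool.Agent.H24R2.JP.XX s = 0 ∧ 0 ≤ s.im ∧ s.im ≤ 1} := by
    intro p hp h0 h1
    have him : (p.1 - 1 / 2).im = p.1.im := by simp
    have hord := order_XX (z := p.1 - 1 / 2) (by rw [him]; exact h0)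
    have e : 1 / 2 + (p.1 - 1 / 2) = p.1 := by ring
    rw [e] at hord
    refine ⟨order_zero (n := p.2) (by rw [hord]; exact hp.2.2), ?_, ?_⟩
    · rw [him]; exact h0.le
    · rw [him]; exact h1
  classical
  set F := hfin.toFinset.filter (fun s => 0 < s.im) with hF
  rcases F.eq_empty_or_nonempty with h | h
  · refine ⟨1, one_pos, fun p hp h0 => ?_⟩
    by_contra hcon
    push Not at hcon
    have : p.1 - 1 / 2 ∈ F := by
      rw [hF, Finset.mem_filter, Set.Finite.mem_toFinset]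
      exact ⟨hmem p hp h0 hcon, by simpa using h0⟩
    rw [h] at this
    simp at this
  · obtain ⟨s0, hs0, hmin⟩ := Finset.exists_min_image F (fun s => s.im) h
    rw [hF, Finset.mem_filter, Set.Finite.mem_toFinset] at hs0
    refine ⟨s0.im / 2, by linarith [hs0.2], fun p hp h0 => ?_⟩
    by_contra hcon
    push Not at hcon
    have hle : s0.im ≤ 1 := hs0.1.2.2
    have hpos := hs0.2
    have hm : p.1 - 1 / 2 ∈ F := by
      rw [hF, Finset.mem_filter, Set.Finite.mem_toFinset]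
      exact ⟨hmem p hp h0 (by linarith), by simpa using h0⟩
    have h2 := hmin _ hm
    have him : (p.1 - 1 / 2).im = p.1.im := by simp
    simp only [him] at h2
    linarith

theorem N_eq {α β : ℝ} (hα : 0 < α) : ∀ᶠ T : ℝ in atTop,
    (N T α β : ℝ) = zetaCount T (fun _ : Fin 1 => α) (fun _ => β) := by
  obtain ⟨h0, hh0, hlow⟩ := low
  filter_upwards [Real.tendsto_log_atTop.eventually_ge_atTop (2 * Real.pi * β / h0),
    eventually_gt_atTop (1 : ℝ)] with T h1 hT
  have hL : 0 < Real.log T := Real.log_pos hT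
  have hpi := Real.pi_pos
  have hh : 2 * Real.pi * β ≤ h0 * Real.log T := by
    rw [div_le_iff₀ hh0] at h1
    linarith
  have h := pairs_eq zetaZeros (fun z => z.im) (T := T) (β := β) hα
  unfold N zetaCount
  rw [← h]
  congr 2
  ext p
  constructor
  · rintro ⟨a1, a2, a3, a4, a5, a6, a7, a8⟩
    have b7 := a7
    have b8 := a8
    rw [le_div_iff₀ (by positivity)] at b7
    rw [div_le_iff₀ (by positivity)] at b8
    have c1 : 0 < α * (2 * Real.pi) := by positivity
    have c2 : 0 < p.1.1.im - p.2.1.im := by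
      by_contra hcon
      push Not at hcon
      nlinarith
    have c3 : 0 < p.1.1.im := by linarith
    have c4 := hlow p.1 a1 c3
    refine ⟨a1, a2, c3, a4, ?_, a6, a7, a8⟩
    rcases a5.lt_or_eq with h2 | h2
    · exact h2
    · rw [← h2] at b8
      nlinarith
  · rintro ⟨a1, a2, a3, a4, a5, a6, a7, a8⟩
    exact ⟨a1, a2, a3.le, a4, a5.le, a6, a7, a8⟩

lemma fii : ∀ a b : ℝ, IntervalIntegrable
    (fun u : ℝ => 1 - (Real.sin (Real.pi * u) / (Real.pi * u)) ^ 2) MeasureTheory.volume a b := by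
  intro a b
  refine (intervalIntegrable_const (c := (1 : ℝ)) (μ := MeasureTheory.volume)).mono_fun' ?_ ?_
  · exact (by fun_prop : Measurable fun u : ℝ =>
      1 - (Real.sin (Real.pi * u) / (Real.pi * u)) ^ 2).aestronglyMeasurable
  · refine Filter.Eventually.of_forall fun u => ?_
    have h2 : |Real.sin (Real.pi * u) / (Real.pi * u)| ≤ 1 := by
      rcases eq_or_ne (Real.pi * u) 0 with h0 | h0
      · simp [h0]
      · rw [abs_div, div_le_one (abs_pos.2 h0)]
        exact Real.abs_sin_le_abs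
    have h3 : (Real.sin (Real.pi * u) / (Real.pi * u)) ^ 2 ≤ 1 := (sq_le_one_iff_abs_le_one _).2 h2
    show ‖1 - (Real.sin (Real.pi * u) / (Real.pi * u)) ^ 2‖ ≤ 1
    rw [Real.norm_eq_abs, abs_of_nonneg (by linarith)]
    nlinarith [sq_nonneg (Real.sin (Real.pi * u) / (Real.pi * u))]

lemma IF_cont : Continuous fun p : (Fin 1 → ℝ) × (Fin 1 → ℝ) => IF (p.1 0) (p.2 0) := by
  have h1 : Continuous fun b : ℝ => IF 0 b := intervalIntegral.continuous_primitive fii 0
  have h2 : ∀ a b : ℝ, IF a b = IF 0 b - IF 0 a := by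
    intro a b
    unfold IF
    rw [intervalIntegral.integral_interval_sub_left (fii 0 b) (fii 0 a)]
  have h3 : (fun p : (Fin 1 → ℝ) × (Fin 1 → ℝ) => IF (p.1 0) (p.2 0)) =
      fun p => IF 0 (p.2 0) - IF 0 (p.1 0) := funext fun p => h2 _ _
  rw [h3]
  have h4 : Continuous fun p : (Fin 1 → ℝ) × (Fin 1 → ℝ) => p.1 0 := by fun_prop
  have h5 : Continuous fun p : (Fin 1 → ℝ) × (Fin 1 → ℝ) => p.2 0 := by fun_prop
  exact (h1.comp h5).sub (h1.comp h4)

lemma IF_pos {α β : ℝ} (hα : 0 < α) (h : α < β) : 0 < IF α β := by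
  unfold IF
  refine intervalIntegral.intervalIntegral_pos_of_pos_on (fii α β) (fun u hu => ?_) h
  have hpi := Real.pi_gt_three
  have hu0 : 0 < u := hα.trans hu.1
  have hx : 0 < Real.pi * u := by positivity
  have h1 : |Real.sin (Real.pi * u) / (Real.pi * u)| < 1 := by
    rw [abs_div, abs_of_pos hx, div_lt_one hx]
    rcases lt_or_ge (Real.pi * u) Real.pi with h3 | h3
    · rw [abs_of_pos (Real.sin_pos_of_pos_of_lt_pi hx h3)]
      exact Real.sin_lt hx
    · have := Real.abs_sin_le_one (Real.pi * u)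
      linarith
  have h3 : (Real.sin (Real.pi * u) / (Real.pi * u)) ^ 2 < 1 := (sq_lt_one_iff_abs_lt_one _).2 h1
  linarith

/-- the open set of boxes -/
def S1 : Set ((Fin 1 → ℝ) × (Fin 1 → ℝ)) := {p | 0 < p.1 0 ∧ p.1 0 < p.2 0}

lemma S1_open : IsOpen S1 := by
  have h1 : Continuous fun p : (Fin 1 → ℝ) × (Fin 1 → ℝ) => p.1 0 := by fun_prop
  have h2 : Continuous fun p : (Fin 1 → ℝ) × (Fin 1 → ℝ) => p.2 0 := by fun_prop
  exact (isOpen_lt continuous_const h1).inter (isOpen_lt h1 h2)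

lemma const_fin (a : Fin 1 → ℝ) : (fun _ : Fin 1 => a 0) = a := by
  funext i
  rw [Subsingleton.elim i 0]

lemma ratio_iff {f : ℝ → ℝ} {I : ℝ} (hI : 0 < I) :
    Tendsto (fun T => f T / (X T * I)) atTop (𝓝 1) ↔ Tendsto (fun T => f T / X T) atTop (𝓝 I) := by
  have e1 : ∀ T, f T / (X T * I) = f T / X T * I⁻¹ := by
    intro T
    rw [div_mul_eq_div_div, div_eq_mul_inv (f T / X T)]
  constructor
  · intro h
    have h1 := h.mul_const I
    rw [one_mul] at h1
    refine h1.congr fun T => ?_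
    rw [e1, mul_assoc, inv_mul_cancel₀ hI.ne', mul_one]
  · intro h
    have h1 := h.mul_const I⁻¹
    rw [mul_inv_cancel₀ hI.ne'] at h1
    exact h1.congr fun T => (e1 T).symm

theorem Q1_iff : Q1 ↔ ∀ p ∈ S1, Tendsto (fun T => zetaCount T p.1 p.2 / X T) atTop
    (𝓝 (IF (p.1 0) (p.2 0))) := by
  constructor
  · rintro h ⟨α, β⟩ ⟨h1, h2⟩
    have h3 := (ratio_iff (IF_pos h1 h2)).1 (h (α 0) (β 0) h1 h2)
    refine h3.congr' ?_
    filter_upwards [N_eq (β := β 0) h1] with T hT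
    rw [hT, const_fin, const_fin]
  · intro h α β h1 h2
    rw [ratio_iff (IF_pos h1 h2)]
    refine (h (fun _ => α, fun _ => β) ⟨h1, h2⟩).congr' ?_
    filter_upwards [N_eq (β := β) h1] with T hT
    rw [hT]

theorem Q1Heat_iff (t : ℝ → ℝ) : Q1Heat t ↔ ∀ p ∈ S1,
    Tendsto (fun T => heatCount (t T) T p.1 p.2 / X T) atTop (𝓝 (IF (p.1 0) (p.2 0))) := by
  constructor
  · rintro h ⟨α, β⟩ ⟨h1, h2⟩
    have h3 := (ratio_iff (IF_pos h1 h2)).1 (h (α 0) (β 0) h1 h2)
    refine h3.congr fun T => ?_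
    rw [NH_eq h1, const_fin, const_fin]
  · intro h α β h1 h2
    rw [ratio_iff (IF_pos h1 h2)]
    refine (h (fun _ => α, fun _ => β) ⟨h1, h2⟩).congr fun T => ?_
    rw [NH_eq h1]

/-- (1) Comparison of the `k`-point correlation counts of zeta and of `H t`, `t ≤ δ / log² T`.
(2) For `t(T) log² T → 0`: any limit law for these counts, for the boxes in an open set `S` and with
limits `M` that are continuous on `S`, holds for zeta if and only if it holds for `H (t T)`.
(3) In particular Q1 is equivalent to the same asymptotics for the zeros of `H (t T)`. -/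
theorem result :
    (∀ (k : ℕ) (α β : Fin k → ℝ) (ε : ℝ), 0 < ε → ∃ δ T₀ : ℝ, 0 < δ ∧ 2 ≤ T₀ ∧
      ∀ T t : ℝ, T₀ ≤ T → 0 ≤ t → t ≤ δ / Real.log T ^ 2 →
        zetaCount T α β ≤ heatCount t T (fun i => α i - ε) (fun i => β i + ε) +
          ε * (T * Real.log T) ∧
        heatCount t T α β ≤ zetaCount T (fun i => α i - ε) (fun i => β i + ε) +
          ε * (T * Real.log T)) ∧
    (∀ t : ℝ → ℝ, (∀ T, 0 ≤ t T) → Tendsto (fun T => t T * Real.log T ^ 2) atTop (𝓝 0) →
      (∀ (k : ℕ) (S : Set ((Fin k → ℝ) × (Fin k → ℝ))), IsOpen S →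
        ∀ M : (Fin k → ℝ) × (Fin k → ℝ) → ℝ, ContinuousOn M S →
          ((∀ p ∈ S, Tendsto (fun T => zetaCount T p.1 p.2 / X T) atTop (𝓝 (M p))) ↔
            ∀ p ∈ S, Tendsto (fun T => heatCount (t T) T p.1 p.2 / X T) atTop (𝓝 (M p)))) ∧
      (Q1 ↔ Q1Heat t)) := by
  refine ⟨cmp', fun t ht ht2 => ⟨fun k S hS M hM => law_iff ht ht2 hS hM, ?_⟩⟩
  rw [Q1_iff, Q1Heat_iff]
  exact law_iff ht ht2 S1_open IF_cont.continuousOn

end Pool.Agent.Results.MP_8958e8_nt.HeatFlowCorrelations
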