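import Pool.Agent.U761.UX.GLU
import Pool.Agent.U761.SZ.ZC2

set_option autoImplicit false

/-!
# The maximal excess and the maximal defect of the number of zeros, unconditionally

For `t > 0` and `h ≥ 0` let `N(t, h)` be the number of the nontrivial zeros `β + iγ` of zeta (on or off the critical line) with
`t < γ ≤ t + h`, with multiplicity. For `T < t ≤ 2T` a window with `h = 2πb / log T` has `b` zeros in the mean.

Without any hypothesis: for every `ε > 0` and `η > 0`, for all `r ≥ r₀(ε, η)` and all `T ≥ T₀(r)`, all `t` in `(T, 2T]` outside a set of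
measure at most `η T` have a `b < r` with `N(t, 2πb / log T) ≥ b + (1/π - ε) log r` and a `b < r` with
`N(t, 2πb / log T) ≤ b - (1/π - ε) log r`.

The constant `1/π` is the one of the sine process (the eigenvalues of random unitary matrices), where it is sharp. Under the Riemann
hypothesis the statement is one half of `Pool.Agent.Results.MP_7eacff_nt.MaximalDeviation` (helper403), where the corresponding upper
bounds are proved also.

The proof: the second moment method of helper403 for the maximum of the prime field on the scales between `T^(1/r)` and `T^(1/log r)`,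
in the form of helper429 which allows exceptional sets (`Pool.Agent.U429.UX.lowU`); and, without any hypothesis on the zeros, the
comparison of the argument of zeta with the prime field in the mean with the exponential weight of the second moment method, where the
weight is replaced by the square of a Dirichlet polynomial (`Pool.Agent.U761.UX`): relative to such squares `arg ζ(1/2 + it)` is within
`O(1)` in the mean square of the imaginary part of the logarithm of the Euler product over the primes up to a small power of `T`.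
-/

namespace Pool.Agent.Results.MP_8958e8_nt.MaxOfZeroCounts

open Filter Topology MeasureTheory Complex
open Pool.Agent.Q97.UM Pool.Agent.U761.SZ

noncomputable section

/-- the number of the zeros `β + iγ` of zeta with `0 < β < 1` and `t < γ ≤ t + h`, with multiplicity -/
def N (t h : ℝ) : ℕ :=
  ∑ᶠ s ∈ {s : ℂ | riemannZeta s = 0 ∧ 0 < s.re ∧ s.re < 1 ∧ t < s.im ∧ s.im ≤ t + h}, analyticOrderNatAt riemannZeta s

theorem N_eq (t h : ℝ) : N t h = Nz t (t + h) := rfl

theorem good_ae (h : ℝ) : ∀ᵐ t : ℝ, (NoOrd t ∧ piS t = aS t) ∧ (NoOrd (t + h) ∧ piS (t + h) = aS (t + h)) := by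
  have h1 : ∀ᵐ t : ℝ, NoOrd t ∧ piS t = aS t := by
    filter_upwards [ae_piS, ae_not_ord] with t h1 h2
    exact ⟨h2.2, h1⟩
  have h2 := (measurePreserving_add_right (volume : Measure ℝ) h).quasiMeasurePreserving.ae h1
  filter_upwards [h1, h2] with t a1 a2
  exact ⟨a1, a2⟩

/-- the zeros of a window and the argument of zeta -/
theorem count_arg : ∃ C : ℝ, 0 < C ∧ ∀ T t h : ℝ, 10 ≤ T → T < t → t ≤ 2 * T → 0 < h → h ≤ 1 → NoOrd t → piS t = aS t →
    NoOrd (t + h) → piS (t + h) = aS (t + h) →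
    |Real.pi * ((N t h : ℝ) - h / (2 * Real.pi) * Real.log T) - (aS (t + h) - aS t)| ≤ C := by
  obtain ⟨C, hC, hz⟩ := zcount
  refine ⟨C + 1, by linarith, fun T t h hT hTt htT hh hh1 n1 p1 n2 p2 => ?_⟩
  have h1 := hz t (t + h) (by linarith) (by linarith) (by linarith) n1 n2
  have e : t + h - t = h := by ring
  rw [e, p1, p2] at h1
  have hT0 : 0 < T := by linarith
  have hl1 : Real.log T ≤ Real.log t := Real.log_le_log hT0 hTt.le
  have hl2 : Real.log t ≤ Real.log T + Real.log 2 := by
    rw [← Real.log_mul hT0.ne' (by norm_num)]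
    refine Real.log_le_log (by linarith) ?_
    linarith
  have hl3 := Real.log_two_lt_d9
  have hpi := Real.pi_pos
  have e2 : Real.pi * ((N t h : ℝ) - h / (2 * Real.pi) * Real.log T) - (aS (t + h) - aS t) =
      (Real.pi * (Nz t (t + h) : ℝ) - h / 2 * Real.log t - (aS (t + h) - aS t)) + h / 2 * (Real.log t - Real.log T) := by
    rw [N_eq]
    field_simp
    ring
  rw [e2]
  refine (abs_add_le _ _).trans ?_
  have h3 : |h / 2 * (Real.log t - Real.log T)| ≤ h := by
    rw [abs_of_nonneg (mul_nonneg (by linarith) (by linarith))]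
    nlinarith
  have h4 : C * h ≤ C := mul_le_of_le_one_right hC.le hh1
  linarith

/-- **The maximal excess and the maximal defect of the number of zeros in the windows at a point.** -/
theorem result : ∀ ε η : ℝ, 0 < ε → 0 < η → ∃ r₀ : ℕ, ∀ r : ℕ, r₀ ≤ r → ∃ T₀ : ℝ, ∀ T : ℝ, T₀ ≤ T →
    (1 - η) * T ≤ volume.real {t : ℝ | T < t ∧ t ≤ 2 * T ∧
      (∃ b : ℕ, b < r ∧ (b : ℝ) + (1 / Real.pi - ε) * Real.log r ≤ N t (2 * Real.pi * b / Real.log T)) ∧
      (∃ b : ℕ, b < r ∧ (N t (2 * Real.pi * b / Real.log T) : ℝ) ≤ b - (1 / Real.pi - ε) * Real.log r)} := by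
  intro ε η hε hη
  obtain ⟨C, hC, hcount⟩ := count_arg
  have hpi := Real.pi_pos
  have hpi3 := Real.pi_gt_three
  -- the small parameter
  obtain ⟨e1, he1d⟩ : ∃ e1 : ℝ, e1 = min (1 / 40) (ε / 16) := ⟨_, rfl⟩
  have he0 : 0 < e1 := by rw [he1d]; positivity
  have he40 : e1 ≤ 1 / 40 := by rw [he1d]; exact min_le_left _ _
  have heε : e1 ≤ ε / 16 := by rw [he1d]; exact min_le_right _ _
  have hlogr : Tendsto (fun r : ℕ => Real.log (r : ℝ)) atTop atTop :=
    Real.tendsto_log_atTop.comp tendsto_natCast_atTop_atTop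
  have hg := Pool.Agent.U761.UX.glue e1 e1 (η / 2) he0 (by linarith) he0 (by positivity)
  obtain ⟨r₀, hr₀⟩ := Filter.eventually_atTop.1 (hg.and ((hlogr.eventually_ge_atTop (C / e1)).and (hlogr.eventually_ge_atTop 1)))
  refine ⟨r₀, fun r hr => ?_⟩
  obtain ⟨g1, g2, g3⟩ := hr₀ r hr
  obtain ⟨T₀, hT₀⟩ := Filter.eventually_atTop.1 (g1.and ((eventually_ge_atTop (16 : ℝ)).and
    (Real.tendsto_log_atTop.eventually_ge_atTop (2 * Real.pi * r + 1))))
  refine ⟨T₀, fun T hT => ?_⟩
  obtain ⟨a1, a2, a3⟩ := hT₀ T hT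
  have hT0 : 0 < T := by linarith
  have hprob := Pool.Agent.U403.Max.PT_univ hT0
  have hrp : 0 ≤ 2 * Real.pi * r := by positivity
  have hL0 : 0 < Real.log T := by linarith
  obtain ⟨L, hL⟩ : ∃ L : ℝ, L = Real.log T := ⟨_, rfl⟩
  obtain ⟨q, hq⟩ : ∃ q : ℝ, q = Real.log r := ⟨_, rfl⟩
  rw [← hL] at a1 a3 hL0 ⊢
  rw [← hq] at a1 g2 g3 ⊢
  obtain ⟨F, hF⟩ : ∃ F : ℝ → Set ℝ, F = fun σ => {t | ∃ b < r, (1 - 5 * e1 - 3 * e1) * q ≤ σ * (aS (t + 2 * Real.pi * b / L) - aS t)} :=
    ⟨_, rfl⟩
  have hFm : ∀ σ : ℝ, MeasurableSet (F σ) := by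
    intro σ
    have : F σ = ⋃ b ∈ Finset.range r, {t | (1 - 5 * e1 - 3 * e1) * q ≤ σ * (aS (t + 2 * Real.pi * (b : ℕ) / L) - aS t)} := by
      rw [hF]
      ext t
      simp
    rw [this]
    refine Finset.measurableSet_biUnion _ fun b _ => ?_
    exact measurableSet_le measurable_const
      (((aS_meas.comp (measurable_id.add_const _)).sub aS_meas).const_mul σ)
  have hF1 : 1 - η / 2 ≤ (Pool.Agent.U403.Max.PT T).real (F 1) := by
    have := a1 1 (Or.inl rfl)
    rw [hF]
    exact this
  have hF2 : 1 - η / 2 ≤ (Pool.Agent.U403.Max.PT T).real (F (-1)) := by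
    have := a1 (-1) (Or.inr rfl)
    rw [hF]
    exact this
  have hF12 : 1 - η ≤ (Pool.Agent.U403.Max.PT T).real (F 1 ∩ F (-1)) := by
    have h1 := measureReal_union_add_inter (μ := Pool.Agent.U403.Max.PT T) (s := F 1) (hFm (-1))
    have h2 : (Pool.Agent.U403.Max.PT T).real (F 1 ∪ F (-1)) ≤ 1 := measureReal_le_one
    linarith
  rw [Pool.Agent.U403.Max.PT_real hT0 ((hFm 1).inter (hFm (-1))), le_div_iff₀ hT0] at hF12
  refine hF12.trans ?_
  rw [measureReal_def]
  refine ENNReal.toReal_mono ?_ ?_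
  · refine ne_of_lt (lt_of_le_of_lt (measure_mono (t := Set.Icc T (2 * T)) ?_) (by simp))
    rintro t ⟨h1, h2, -⟩
    exact ⟨h1.le, h2⟩
  refine measure_mono_ae ?_
  have hall : ∀ᵐ t : ℝ, ∀ b : ℕ, (NoOrd t ∧ piS t = aS t) ∧ (NoOrd (t + 2 * Real.pi * b / L) ∧
      piS (t + 2 * Real.pi * b / L) = aS (t + 2 * Real.pi * b / L)) := by
    rw [ae_all_iff]
    exact fun b => good_ae _
  filter_upwards [hall] with t ht hS
  obtain ⟨⟨f1, f2⟩, s1, s2⟩ := hS
  -- the passage to the counts
  have key : ∀ σ : ℝ, σ = 1 ∨ σ = -1 → t ∈ F σ → ∃ b : ℕ, b < r ∧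
      (1 / Real.pi - ε) * q ≤ σ * ((N t (2 * Real.pi * b / L) : ℝ) - b) := by
    intro σ hσ hm
    rw [hF] at hm
    obtain ⟨b, hb, hb2⟩ := hm
    refine ⟨b, hb, ?_⟩
    have hq0 : 0 < q := by linarith
    have hmain : 0 < (1 - 5 * e1 - 3 * e1) * q := mul_pos (by linarith) hq0
    have hb0 : 0 < b := by
      rcases Nat.eq_zero_or_pos b with h | h
      · exfalso
        rw [h] at hb2
        simp at hb2
        linarith
      · exact h
    have hbr0 : (0 : ℝ) < b := by exact_mod_cast hb0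
    have hbr : (b : ℝ) ≤ r := by exact_mod_cast hb.le
    obtain ⟨⟨n1, p1⟩, n2, p2⟩ := ht b
    have hh0 : 0 < 2 * Real.pi * b / L := by positivity
    have hh1 : 2 * Real.pi * b / L ≤ 1 := by
      rw [div_le_one hL0]
      have := mul_le_mul_of_nonneg_left hbr (show 0 ≤ 2 * Real.pi by positivity)
      linarith
    have h1 := hcount T t (2 * Real.pi * b / L) (by linarith) s1 s2 hh0 hh1 n1 p1 n2 p2
    rw [← hL] at h1
    have e : 2 * Real.pi * b / L / (2 * Real.pi) * L = b := by field_simp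
    rw [e] at h1
    have h2 : σ * (aS (t + 2 * Real.pi * b / L) - aS t) - C ≤ Real.pi * (σ * ((N t (2 * Real.pi * b / L) : ℝ) - b)) := by
      have h3 := abs_le.1 h1
      rcases hσ with h | h
      · rw [h]; linarith [h3.1]
      · rw [h]; linarith [h3.2]
    have h4 : C ≤ e1 * q := by
      rw [div_le_iff₀ he0] at g2
      linarith
    have h5 : (1 - 9 * e1) * q ≤ Real.pi * (σ * ((N t (2 * Real.pi * b / L) : ℝ) - b)) := by linarith
    have h6 : Real.pi * ((1 / Real.pi - ε) * q) ≤ (1 - 9 * e1) * q := by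
      have h7 : Real.pi * ((1 / Real.pi - ε) * q) = (1 - Real.pi * ε) * q := by field_simp
      rw [h7]
      refine mul_le_mul_of_nonneg_right ?_ hq0.le
      have := mul_le_mul_of_nonneg_right hpi3.le hε.le
      linarith
    exact le_of_mul_le_mul_left (h6.trans h5) hpi
  refine ⟨s1, s2, ?_, ?_⟩
  · obtain ⟨b, hb, h1⟩ := key 1 (Or.inl rfl) f1
    exact ⟨b, hb, by linarith⟩
  · obtain ⟨b, hb, h1⟩ := key (-1) (Or.inr rfl) f2
    exact ⟨b, hb, by linarith⟩

end

end Pool.Agent.Results.MP_8958e8_nt.MaxOfZeroCounts
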