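import Pool.Agent.U398.MV.Fin3b
import Pool.Agent.U398.MV.Fin6

set_option autoImplicit false

/-!
# All moments of the zero counts in windows, over the heights and over the zeros, unconditionally

Part (1): means over `t` of all linear forms in shifts of `S(t)` (projects MV, MV2, MV3). Part (2): means over the
zeros (projects MV4, MV6), windows at all distances up to `T/(log T)³` from the zeros.

Projects MV, MV2 and MV3: helper398 (lead), helper94, helper473, helper504, helper618, helper668, helper6, helper204,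
helper667, helper780, helper858, helper946, helper114, helper503, helper358, helper125, helper338, helper606, helper84,
helper20, helper881, helper460, helper671, helper256, helper139, helper747, helper501; library `Pool.Agent.U761.SZ`
(helper761) on top of `Pool.Agent.Q97.UM`. MV4: helper15, helper688, helper898. MV6: helper978, helper688, helper388, helper571,
helper427, helper390, helper873, helper255.
-/

namespace Pool.Agent.Results.MP_8958e8_nt.MomentsOfZeroCounts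

open MeasureTheory Complex
open scoped Nat

noncomputable section

/-- `S(t) = (1/π) arg ζ(1/2 + it)`: `1/π` times the integral of `Im (ζ'/ζ)(s) ds` along the segments
from `2` to `2 + it` and from `2 + it` to `1/2 + it` -/
def S (t : ℝ) : ℝ :=
  1 / Real.pi * ((∫ u in (0 : ℝ)..t, (logDeriv riemannZeta ((2 : ℂ) + u * I)).re) -
    ∫ x in (1 / 2 : ℝ)..2, (logDeriv riemannZeta ((x : ℂ) + t * I)).im)

/-- the number of nontrivial zeros of `ζ` with ordinate in `(0, t]`, with multiplicity -/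
def NZ (t : ℝ) : ℕ :=
  ∑ᶠ s ∈ {s : ℂ | riemannZeta s = 0 ∧ 0 < s.re ∧ s.re < 1 ∧ 0 < s.im ∧ s.im ≤ t}, analyticOrderNatAt riemannZeta s

/-- for `n ≥ 1`: the `n`-th positive ordinate of a nontrivial zero, in nondecreasing order, with multiplicity -/
def γ (n : ℕ) : ℝ := sInf {t : ℝ | n ≤ NZ t}

/-- the fluctuation of the counting function (it is `S(t) + 7/8 + O(1/t)`) -/
def R (t : ℝ) : ℝ := NZ t - (t / (2 * Real.pi) * Real.log (t / (2 * Real.pi)) - t / (2 * Real.pi))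

/-- `∑_{i,j} a_i a_j (1/(2π²)) log |ζ(1 + 1/log T + i(h_i - h_j))|` -/
def V {n : ℕ} (T : ℝ) (a h : Fin n → ℝ) : ℝ :=
  ∑ i, ∑ j, a i * a j * (1 / (2 * Real.pi ^ 2) *
    Real.log ‖riemannZeta (1 + 1 / Real.log T + (h i - h j) * I)‖)

/-- the `m`-th moment of the normal law with variance `v`: `(m-1)!! v^(m/2)` for even `m`, else `0` -/
def gaussMoment (m : ℕ) (v : ℝ) : ℝ := if Even m then ((m - 1)‼ : ℝ) * v ^ (m / 2) else 0

theorem hV (T : ℝ) (n : ℕ) (a h : Fin n → ℝ) : V T a h = Pool.Agent.U398.MV.Vh T a h := by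
  unfold V Pool.Agent.U398.MV.Vh
  refine Finset.sum_congr rfl fun i _ => Finset.sum_congr rfl fun j _ => ?_
  congr 5
  push_cast
  ring

/-- (1) means over the heights -/
theorem heights : ∀ m : ℕ, 3 ≤ m → ∃ C T0 : ℝ, ∀ T : ℝ, T0 ≤ T →
    ∀ (n : ℕ) (a h : Fin n → ℝ), (∑ i, |a i|) ≤ 1 → (∀ i, 0 ≤ h i ∧ h i ≤ T / (Real.log T) ^ 2) →
    IntervalIntegrable (fun t => (∑ i, a i * S (t + h i)) ^ m) volume T (2 * T) ∧
    |1 / T * (∫ t in T..(2 * T), (∑ i, a i * S (t + h i)) ^ m) - gaussMoment m (V T a h)| ≤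
      C * (1 + |V T a h|) ^ ((m - 1) / 2) := by
  intro m hm
  have hF : ∀ (n : ℕ) (a h : Fin n → ℝ) (t : ℝ), (∑ i, a i * S (t + h i)) =
    ∑ i, a i * Pool.Agent.U398.MV.pS (t + h i) := fun n a h t => rfl
  obtain ⟨T1, _, H1⟩ := Pool.Agent.U398.MV.pow_int Pool.Agent.U858.MV3.t_EM2 m (by omega)
  rcases Nat.even_or_odd' m with ⟨k, hk | hk⟩
  · obtain ⟨k, rfl⟩ : ∃ j, k = j + 1 := ⟨k - 1, by omega⟩
    obtain ⟨C, T0, _, _, H⟩ := Pool.Agent.U398.MV.th3 k
    refine ⟨C, max T0 T1, fun T hT n a h ha hh => ⟨H1 T ((le_max_right _ _).trans hT) n a h hh, ?_⟩⟩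
    obtain ⟨h1, -⟩ := H T ((le_max_left _ _).trans hT) n a h ha hh
    have e1 : m = 2 * k + 2 := by omega
    have e2 : (m - 1) / 2 = k := by omega
    have e3 : Even m := by rw [e1]; exact ⟨k + 1, by ring⟩
    have e4 : m / 2 = k + 1 := by omega
    have e5 : m - 1 = 2 * k + 1 := by omega
    have e6 : (((2 * k + 1)‼ : ℕ) : ℝ) =
        ((2 * k + 2).factorial : ℝ) / (2 ^ (k + 1) * ((k + 1).factorial : ℝ)) := by
      have h2 := Nat.factorial_eq_mul_doubleFactorial (2 * k + 1)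
      have h3 := Nat.doubleFactorial_two_mul (k + 1)
      have h4 : 2 * k + 1 + 1 = 2 * (k + 1) := by ring
      rw [eq_div_iff (by positivity), show 2 * k + 2 = 2 * k + 1 + 1 by ring, h2, h4, h3]
      push_cast
      ring
    unfold gaussMoment
    rw [if_pos e3, e2, e4, e5, e6, hV]
    simp_rw [hF, e1]
    exact h1
  · obtain ⟨C, T0, _, _, H⟩ := Pool.Agent.U398.MV.th3 k
    refine ⟨C, max T0 T1, fun T hT n a h ha hh => ⟨H1 T ((le_max_right _ _).trans hT) n a h hh, ?_⟩⟩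
    obtain ⟨-, h1⟩ := H T ((le_max_left _ _).trans hT) n a h ha hh
    have e2 : (m - 1) / 2 = k := by omega
    have e3 : ¬ Even m := by rw [Nat.not_even_iff_odd, hk]; exact ⟨k, rfl⟩
    unfold gaussMoment
    rw [if_neg e3, e2, hV, sub_zero]
    simp_rw [hF, hk]
    exact h1

/-- (1) means over the heights; (2) means over the zeros -/
theorem result :
    (∀ m : ℕ, 3 ≤ m → ∃ C T0 : ℝ, ∀ T : ℝ, T0 ≤ T →
      ∀ (n : ℕ) (a h : Fin n → ℝ), (∑ i, |a i|) ≤ 1 → (∀ i, 0 ≤ h i ∧ h i ≤ T / (Real.log T) ^ 2) →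
      IntervalIntegrable (fun t => (∑ i, a i * S (t + h i)) ^ m) volume T (2 * T) ∧
      |1 / T * (∫ t in T..(2 * T), (∑ i, a i * S (t + h i)) ^ m) - gaussMoment m (V T a h)| ≤
        C * (1 + |V T a h|) ^ ((m - 1) / 2)) ∧
    (∀ (m : ℕ) (ε : ℝ), 1 ≤ m → 0 < ε → ∃ C T0 : ℝ, ∀ T : ℝ, T0 ≤ T →
      ∀ (n : ℕ) (a h : Fin n → ℝ), (∑ i, |a i|) ≤ 1 → (∑ i, a i) = 0 → (∀ i, |h i| ≤ T / Real.log T ^ 3) →
      |(∑ j ∈ Finset.Ioc (NZ T) (NZ (2 * T)), (∑ i, a i * R (γ j + h i)) ^ m) -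
          ((NZ (2 * T) : ℝ) - NZ T) * gaussMoment m (V T a h)| ≤
        C * ((NZ (2 * T) : ℝ) - NZ T) * (1 + |V T a h|) ^ (((m : ℝ) - 1) / 2 + ε)) := by
  refine ⟨heights, ?_⟩
  intro k ε hk hε
  obtain ⟨C, T0, -, -, H⟩ := Pool.Agent.U398.MV.th6 k ε hk hε
  refine ⟨C, T0, fun T hT m c x h1 h2 h3 => ?_⟩
  rw [hV]
  exact H T hT m c x ⟨h1, h2, h3⟩

end

end Pool.Agent.Results.MP_8958e8_nt.MomentsOfZeroCounts
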